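import Pool.Agent.H.MP_1b7163_gt.D

namespace Pool.Agent.Results.MP_1b7163_gt.Yes

open scoped ContDiff

/-- The complete flat Moebius band of width `w`: the plane modulo the glide reflection
`(v, t) ↦ (v + w, -t)`, with the quotient topology. -/
abbrev Band (w : ℝ) : Type := Quot fun p q : ℝ × ℝ => q = (p.1 + w, -p.2)

theorem result (w : ℝ) (hw : 0 < w) :
    ∃ X : Band w → EuclideanSpace ℝ (Fin 4),
      Topology.IsEmbedding X ∧ ContDiff ℝ ∞ (fun p : ℝ × ℝ => X (Quot.mk _ p)) ∧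
      (∀ p u : ℝ × ℝ,
        ‖fderiv ℝ (fun p : ℝ × ℝ => X (Quot.mk _ p)) p u‖ ^ 2 = u.1 ^ 2 + u.2 ^ 2) ∧
      ∃ P : Finset (MvPolynomial (Fin 4) ℝ),
        (∀ m, ∀ f ∈ P, MvPolynomial.eval (fun i => X m i) f = 0) ∧
        ringKrullDim (MvPolynomial (Fin 4) ℝ ⧸ MvPolynomial.vanishingIdeal ℝ
          {y : Fin 4 → ℝ | ∀ f ∈ P, MvPolynomial.eval y f = 0}) = 2 :=
  Pool.Agent.H.MP_1b7163_gt.final w hw

end Pool.Agent.Results.MP_1b7163_gt.Yes
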